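import Pool.Agent.Run7.h472.OH.Iface

/-!
# Planar first-passage percolation, lower tail: piece ITG (helper824)

Self-improvement: polynomial decay becomes stretched exponential decay.
-/

set_option autoImplicit false

open Filter Set Topology

namespace Pool.Agent.Run7.h824.OH

open Pool.Agent.Run7.h472.OH

/-- comparison of powers -/
theorem ev_le (c : ℝ) {s t : ℝ} (h : s < t) : ∀ᶠ x : ℝ in atTop, c * x ^ s ≤ x ^ t := by
  have h1 := (tendsto_rpow_atTop (sub_pos.2 h)).eventually_ge_atTop c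
  filter_upwards [h1, eventually_gt_atTop 0] with x hx hx0
  have e : x ^ t = x ^ (t - s) * x ^ s := by
    rw [← Real.rpow_add hx0]
    congr 1
    ring
  rw [e]
  exact mul_le_mul_of_nonneg_right hx (Real.rpow_nonneg hx0.le _)

theorem ev_const (c : ℝ) {t : ℝ} (h : 0 < t) : ∀ᶠ x : ℝ in atTop, c ≤ x ^ t :=
  (tendsto_rpow_atTop h).eventually_ge_atTop c

theorem ev_log {s : ℝ} (h : 0 < s) : ∀ᶠ x : ℝ in atTop, Real.log x ≤ x ^ s := by
  have h1 := (isLittleO_log_rpow_atTop h).bound one_pos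
  filter_upwards [h1, eventually_ge_atTop 1] with x hx hx1
  have h2 : 0 ≤ x ^ s := Real.rpow_nonneg (by linarith) _
  rw [Real.norm_of_nonneg (Real.log_nonneg hx1), Real.norm_of_nonneg h2, one_mul] at hx
  exact hx

/-- stretched exponential decay at the level `n ^ a` -/
def PP (F : ℕ → ℝ → ℝ) (a : ℝ) : Prop :=
  ∃ e : ℝ, 0 < e ∧ ∀ᶠ n : ℕ in atTop, F n ((n : ℝ) ^ a) ≤ Real.exp (-((n : ℝ) ^ e))

/-- one step of the iteration -/
theorem itg_step {F : ℕ → ℝ → ℝ} (hanti : ∀ n, Antitone (F n)) {B : ℝ} {M : ℕ}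
    (hB : 1 ≤ B) (hM : 1 ≤ M)
    (hrec : ∀ n N : ℕ, 1 ≤ n → n ≤ N → ∀ (g u p : ℝ) (j ρ : ℕ), 1 ≤ j → 0 ≤ g → g ≤ n / B → 0 < u → 0 < p →
      F n g ≤ p → (2 * (ρ : ℝ) + 1) ^ 2 * p ≤ 1 → B * (N / n) * g ≤ u → B * (N / n) + j ≤ ρ →
      F N u ≤ B * ((2 * (ρ : ℝ) + 1) ^ 2 * p) ^ ((j : ℝ) / M) +
        (2 * (ρ : ℝ) + 1) ^ 2 * F n (u / (4 * j)))
    {κ κ' q b a a' : ℝ} (hκ' : κ' < 1) (hκ0 : 0 < κ) (hq : 0 < q) (hb0 : 0 < b) (hb1 : b < 1)
    (hbκ : κ' < (1 - b) * κ) (hbq : 2 * b < (1 - b) * q) (ha : 1 - κ' ≤ a) (ha' : 0 < a')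
    (haa : (1 - b / 2) * a' ≤ a) (hκ1 : 0 < κ')
    (hdec : ∀ᶠ n : ℕ in atTop, F n ((n : ℝ) ^ (1 - κ)) ≤ (n : ℝ) ^ (-q)) (hP : PP F a') : PP F a := by
  obtain ⟨e, he, hPe⟩ := hP
  obtain ⟨ε, hε⟩ : ∃ ε : ℝ, ε = b * (1 - κ') / 4 := ⟨_, rfl⟩
  obtain ⟨η, hη⟩ : ∃ η : ℝ, η = ((1 - b) * q - 2 * b) / 2 := ⟨_, rfl⟩
  have h1b : 0 < 1 - b := by linarith
  have hε0 : 0 < ε := by
    rw [hε]
    have : 0 < 1 - κ' := by linarith
    positivity
  have hεb : ε ≤ b := by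
    rw [hε]
    have : b * (1 - κ') ≤ b * 1 := mul_le_mul_of_nonneg_left (by linarith) hb0.le
    linarith
  have hη0 : 0 < η := by rw [hη]; linarith
  obtain ⟨e', he'⟩ : ∃ e' : ℝ, e' = min ε ((1 - b) * e) / 2 := ⟨_, rfl⟩
  have hmin0 : 0 < min ε ((1 - b) * e) := lt_min hε0 (mul_pos h1b he)
  have he'0 : 0 < e' := by rw [he']; positivity
  have he'ε : e' < ε := by
    have := min_le_left ε ((1 - b) * e)
    rw [he']; linarith
  have he'e : e' < (1 - b) * e := by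
    have := min_le_right ε ((1 - b) * e)
    rw [he']; linarith
  have hMr : (1 : ℝ) ≤ M := by exact_mod_cast hM
  have hM0 : (0 : ℝ) < M := by linarith
  -- the exponent gain
  have hgain : 0 < a - ε - (1 - b) * a' := by
    have h1 : 0 < a := by linarith
    have h2 : a' * (1 - b / 2) ≤ a := by linarith
    have h3 : (1 - b) * a' ≤ a * (1 - b / 2) := by
      have e1 : (1 - b) * a' * (1 - b / 2) ≤ (1 - b) * a := by
        calc (1 - b) * a' * (1 - b / 2) = (1 - b) * (a' * (1 - b / 2)) := by ring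
          _ ≤ (1 - b) * a := mul_le_mul_of_nonneg_left h2 h1b.le
      have e2 : (1 - b) * a ≤ a * (1 - b / 2) * (1 - b / 2) := by
        have f1 : a * (1 - b / 2) * (1 - b / 2) = (1 - b) * a + a * b ^ 2 / 4 := by ring
        have f2 : 0 ≤ a * b ^ 2 / 4 := by positivity
        rw [f1]
        linarith
      have e3 : 0 < 1 - b / 2 := by linarith
      exact le_of_mul_le_mul_right (e1.trans e2) e3
    have h4 : ε ≤ a * (b / 4) := by
      rw [hε]
      have := mul_le_mul_of_nonneg_left ha hb0.le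
      linarith
    have h5 : 0 < a * (b / 4) := by positivity
    linarith
  obtain ⟨C1, hC1⟩ : ∃ C1 : ℝ, C1 = 2 * B + 7 := ⟨_, rfl⟩
  have hC10 : 1 ≤ C1 := by rw [hC1]; linarith
  have hk4 : 0 < (1 - κ') - (1 - (1 - b) * κ) := by linarith
  refine ⟨e', he'0, ?_⟩
  -- eventual statements for real `x`
  have hev : ∀ᶠ x : ℝ in atTop, Real.exp 1 ≤ x ∧ 2 * x ^ (1 - b) ≤ x ^ (1 : ℝ) ∧ B ≤ x ^ ((1 - b) * κ) ∧
      2 * B ≤ x ^ ((1 - κ') - (1 - (1 - b) * κ)) ∧ C1 ^ 2 ≤ x ^ η ∧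
      8 * 2 ^ a' ≤ x ^ (a - ε - (1 - b) * a') ∧
      ((1 + Real.log (2 * B)) / (η / M)) * x ^ e' ≤ x ^ ε ∧
      (1 + Real.log (2 * C1 ^ 2) + 2 * b) * x ^ e' ≤ x ^ ((1 - b) * e) ∧ Real.log x ≤ x ^ e' :=
    (eventually_ge_atTop _).and <| (ev_le 2 (by linarith)).and <| (ev_const B (mul_pos h1b hκ0)).and <|
      (ev_const _ hk4).and <| (ev_const _ hη0).and <| (ev_const _ hgain).and <|
      (ev_le _ he'ε).and <| (ev_le _ he'e).and (ev_log he'0)
  have htend : Tendsto (fun N : ℕ => ⌈(N : ℝ) ^ (1 - b)⌉₊) atTop atTop :=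
    tendsto_nat_ceil_atTop.comp ((tendsto_rpow_atTop h1b).comp tendsto_natCast_atTop_atTop)
  filter_upwards [tendsto_natCast_atTop_atTop (R := ℝ) |>.eventually hev, htend.eventually hPe,
    htend.eventually hdec] with N hN hN1 hN2
  obtain ⟨x, hx⟩ : ∃ x : ℝ, x = (N : ℝ) := ⟨_, rfl⟩
  rw [← hx] at hN hN1 hN2 ⊢
  obtain ⟨k1, k2, k3, k4, k5, k6, k7, k8, k9⟩ := hN
  have hxe : (1 : ℝ) ≤ x := by
    have := Real.add_one_le_exp (1 : ℝ)
    linarith
  have hx0 : 0 < x := by linarith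
  have hlog1 : 1 ≤ Real.log x := by
    rw [Real.le_log_iff_exp_le hx0]
    exact k1
  obtain ⟨n, hn⟩ : ∃ n : ℕ, n = ⌈x ^ (1 - b)⌉₊ := ⟨_, rfl⟩
  rw [← hn] at hN1 hN2
  have hxb1 : 1 ≤ x ^ (1 - b) := Real.one_le_rpow hxe h1b.le
  have hn1 : x ^ (1 - b) ≤ n := by rw [hn]; exact Nat.le_ceil _
  have hn2 : (n : ℝ) ≤ 2 * x ^ (1 - b) := by
    have := Nat.ceil_lt_add_one (show 0 ≤ x ^ (1 - b) by linarith)
    rw [← hn] at this
    linarith
  have hnr : (1 : ℝ) ≤ n := hxb1.trans hn1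
  have hn0 : (0 : ℝ) < n := by linarith
  have hn01 : 1 ≤ n := by exact_mod_cast hnr
  have hnN : n ≤ N := by
    have h1 : (n : ℝ) ≤ N := by
      rw [← hx]
      rw [Real.rpow_one] at k2
      linarith
    exact_mod_cast h1
  have hxb : x / n ≤ x ^ b := by
    rw [div_le_iff₀ hn0]
    have e1 : x = x ^ b * x ^ (1 - b) := by
      rw [← Real.rpow_add hx0]
      simp
    calc x = x ^ b * x ^ (1 - b) := e1
      _ ≤ x ^ b * n := mul_le_mul_of_nonneg_left hn1 (Real.rpow_nonneg hx0.le _)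
  have hxb0 : 1 ≤ x ^ b := Real.one_le_rpow hxe hb0.le
  obtain ⟨j, hj⟩ : ∃ j : ℕ, j = ⌈x ^ ε⌉₊ := ⟨_, rfl⟩
  have hxε1 : 1 ≤ x ^ ε := Real.one_le_rpow hxe hε0.le
  have hj1 : x ^ ε ≤ j := by rw [hj]; exact Nat.le_ceil _
  have hj2 : (j : ℝ) ≤ 2 * x ^ ε := by
    have := Nat.ceil_lt_add_one (show 0 ≤ x ^ ε by linarith)
    rw [← hj] at this
    linarith
  have hjr : (1 : ℝ) ≤ j := hxε1.trans hj1
  have hj0 : (0 : ℝ) < j := by linarith
  have hj01 : 1 ≤ j := by exact_mod_cast hjr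
  have hxεb : x ^ ε ≤ x ^ b := Real.rpow_le_rpow_of_exponent_le hxe hεb
  obtain ⟨ρ, hρ⟩ : ∃ ρ : ℕ, ρ = ⌈B * x ^ b⌉₊ + j := ⟨_, rfl⟩
  have hBx : 0 ≤ B * x ^ b := by positivity
  have hρ1 : B * x ^ b + j ≤ ρ := by
    rw [hρ]
    push_cast
    have := Nat.le_ceil (B * x ^ b)
    linarith
  have hρ2 : 2 * (ρ : ℝ) + 1 ≤ C1 * x ^ b := by
    rw [hρ]
    push_cast
    have h1 := (Nat.ceil_lt_add_one hBx).le
    have h2 : C1 * x ^ b = 2 * (B * x ^ b) + 7 * x ^ b := by rw [hC1]; ring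
    rw [h2]
    linarith
  have hρ0 : 0 ≤ 2 * (ρ : ℝ) + 1 := by positivity
  have hρsq : (2 * (ρ : ℝ) + 1) ^ 2 ≤ C1 ^ 2 * x ^ (2 * b) := by
    calc (2 * (ρ : ℝ) + 1) ^ 2 ≤ (C1 * x ^ b) ^ 2 := pow_le_pow_left₀ hρ0 hρ2 2
      _ = C1 ^ 2 * x ^ (2 * b) := by
          rw [mul_pow, ← Real.rpow_natCast (x ^ b) 2, ← Real.rpow_mul hx0.le]
          congr 2
          push_cast
          ring
  have hnq : (n : ℝ) ^ (-q) ≤ x ^ (-((1 - b) * q)) := by
    calc (n : ℝ) ^ (-q) ≤ (x ^ (1 - b)) ^ (-q) :=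
          (Real.rpow_le_rpow_iff_of_neg hn0 (by linarith) (by linarith)).2 hn1
      _ = x ^ (-((1 - b) * q)) := by
          rw [← Real.rpow_mul hx0.le]
          congr 1
          ring
  have hT : (2 * (ρ : ℝ) + 1) ^ 2 * (n : ℝ) ^ (-q) ≤ x ^ (-η) := by
    calc (2 * (ρ : ℝ) + 1) ^ 2 * (n : ℝ) ^ (-q) ≤ (C1 ^ 2 * x ^ (2 * b)) * x ^ (-((1 - b) * q)) :=
          mul_le_mul hρsq hnq (Real.rpow_nonneg hn0.le _) (by positivity)
      _ ≤ (x ^ η * x ^ (2 * b)) * x ^ (-((1 - b) * q)) := by gcongr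
      _ = x ^ (-η) := by
          rw [← Real.rpow_add hx0, ← Real.rpow_add hx0]
          congr 1
          rw [hη]
          ring
  have hT1 : x ^ (-η) ≤ 1 := Real.rpow_le_one_of_one_le_of_nonpos hxe (by linarith)
  have hT0 : 0 ≤ (2 * (ρ : ℝ) + 1) ^ 2 * (n : ℝ) ^ (-q) := by positivity
  -- the conditions of the recursion
  have c1 : (n : ℝ) ^ (1 - κ) ≤ n / B := by
    rw [le_div_iff₀ (by linarith)]
    have e1 : (n : ℝ) = (n : ℝ) ^ (1 - κ) * (n : ℝ) ^ κ := by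
      rw [← Real.rpow_add hn0]
      simp
    have e2 : B ≤ (n : ℝ) ^ κ := by
      refine k3.trans ?_
      rw [Real.rpow_mul hx0.le]
      exact Real.rpow_le_rpow (by linarith) hn1 hκ0.le
    calc (n : ℝ) ^ (1 - κ) * B ≤ (n : ℝ) ^ (1 - κ) * (n : ℝ) ^ κ :=
          mul_le_mul_of_nonneg_left e2 (Real.rpow_nonneg hn0.le _)
      _ = n := e1.symm
  have c2 : B * (x / n) * (n : ℝ) ^ (1 - κ) ≤ x ^ a := by
    have e1 : x / n * (n : ℝ) ^ (1 - κ) = x * (n : ℝ) ^ (-κ) := by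
      rw [show (1 : ℝ) - κ = 1 + (-κ) by ring, Real.rpow_add hn0, Real.rpow_one]
      field_simp
    have e2 : (n : ℝ) ^ (-κ) ≤ x ^ (-((1 - b) * κ)) := by
      calc (n : ℝ) ^ (-κ) ≤ (x ^ (1 - b)) ^ (-κ) :=
            (Real.rpow_le_rpow_iff_of_neg hn0 (by linarith) (by linarith)).2 hn1
        _ = x ^ (-((1 - b) * κ)) := by
            rw [← Real.rpow_mul hx0.le]
            congr 1
            ring
    have hB0 : 0 ≤ B := by linarith
    calc B * (x / n) * (n : ℝ) ^ (1 - κ) = B * (x / n * (n : ℝ) ^ (1 - κ)) := by ring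
      _ = B * (x * (n : ℝ) ^ (-κ)) := by rw [e1]
      _ ≤ B * (x * x ^ (-((1 - b) * κ))) := by gcongr
      _ = B * x ^ (1 - (1 - b) * κ) := by
          rw [show (1 : ℝ) - (1 - b) * κ = 1 + (-((1 - b) * κ)) by ring, Real.rpow_add hx0,
            Real.rpow_one]
      _ ≤ x ^ ((1 - κ') - (1 - (1 - b) * κ)) * x ^ (1 - (1 - b) * κ) := by
          refine mul_le_mul_of_nonneg_right ?_ (Real.rpow_nonneg hx0.le _)
          linarith
      _ = x ^ (1 - κ') := by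
          rw [← Real.rpow_add hx0]
          congr 1
          ring
      _ ≤ x ^ a := Real.rpow_le_rpow_of_exponent_le hxe ha
  have c3 : B * (x / n) + j ≤ ρ := by
    refine le_trans ?_ hρ1
    have : B * (x / n) ≤ B * x ^ b := mul_le_mul_of_nonneg_left hxb (by linarith)
    linarith
  have main := hrec n N hn01 hnN ((n : ℝ) ^ (1 - κ)) (x ^ a) ((n : ℝ) ^ (-q)) j ρ hj01
    (Real.rpow_nonneg hn0.le _) c1 (Real.rpow_pos_of_pos hx0 _) (Real.rpow_pos_of_pos hn0 _) hN2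
    (hT.trans hT1) (by rw [← hx]; exact c2) (by rw [← hx]; exact c3)
  refine main.trans ?_
  -- the first term
  have t1 : B * ((2 * (ρ : ℝ) + 1) ^ 2 * (n : ℝ) ^ (-q)) ^ ((j : ℝ) / M) ≤ Real.exp (-(x ^ e')) / 2 := by
    have e1 : ((2 * (ρ : ℝ) + 1) ^ 2 * (n : ℝ) ^ (-q)) ^ ((j : ℝ) / M) ≤ (x ^ (-η)) ^ ((j : ℝ) / M) :=
      Real.rpow_le_rpow hT0 hT (by positivity)
    have e2 : (x ^ (-η)) ^ ((j : ℝ) / M) = Real.exp (-(η * (j / M) * Real.log x)) := by
      rw [← Real.rpow_mul hx0.le, Real.rpow_def_of_pos hx0]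
      congr 1
      ring
    have e3 : η / M * x ^ ε ≤ η * (j / M) * Real.log x := by
      have f1 : 0 ≤ η / M := by positivity
      calc η / M * x ^ ε ≤ η / M * j := mul_le_mul_of_nonneg_left hj1 f1
        _ = η / M * j * 1 := (mul_one _).symm
        _ ≤ η / M * j * Real.log x := mul_le_mul_of_nonneg_left hlog1 (by positivity)
        _ = η * (j / M) * Real.log x := by ring
    have e4 : x ^ e' + Real.log (2 * B) ≤ η / M * x ^ ε := by
      have f0 : 0 < η / M := by positivity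
      have f1 := mul_le_mul_of_nonneg_left k7 f0.le
      have f2 : η / M * ((1 + Real.log (2 * B)) / (η / M) * x ^ e') = (1 + Real.log (2 * B)) * x ^ e' := by
        field_simp
      rw [f2] at f1
      have f3 : 1 ≤ x ^ e' := Real.one_le_rpow hxe he'0.le
      have f4 : 0 ≤ Real.log (2 * B) := Real.log_nonneg (by linarith)
      have f5 := le_mul_of_one_le_right f4 f3
      have f6 : (1 + Real.log (2 * B)) * x ^ e' = x ^ e' + Real.log (2 * B) * x ^ e' := by ring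
      linarith
    have hB2 : 0 < 2 * B := by linarith
    calc B * ((2 * (ρ : ℝ) + 1) ^ 2 * (n : ℝ) ^ (-q)) ^ ((j : ℝ) / M)
        ≤ B * Real.exp (-(η * (j / M) * Real.log x)) := by
          rw [← e2]
          exact mul_le_mul_of_nonneg_left e1 (by linarith)
      _ ≤ B * Real.exp (-(x ^ e' + Real.log (2 * B))) := by
          refine mul_le_mul_of_nonneg_left (Real.exp_le_exp.2 ?_) (by linarith)
          linarith
      _ = Real.exp (-(x ^ e')) / 2 := by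
          rw [neg_add, Real.exp_add, Real.exp_neg (Real.log (2 * B)), Real.exp_log hB2]
          field_simp
  -- the second term
  have t2 : (2 * (ρ : ℝ) + 1) ^ 2 * F n (x ^ a / (4 * j)) ≤ Real.exp (-(x ^ e')) / 2 := by
    have d1 : (n : ℝ) ^ a' ≤ x ^ a / (4 * j) := by
      rw [le_div_iff₀ (by positivity)]
      have f1 : (n : ℝ) ^ a' ≤ 2 ^ a' * x ^ ((1 - b) * a') := by
        calc (n : ℝ) ^ a' ≤ (2 * x ^ (1 - b)) ^ a' := Real.rpow_le_rpow hn0.le hn2 ha'.le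
          _ = 2 ^ a' * x ^ ((1 - b) * a') := by
              rw [Real.mul_rpow (by norm_num) (by linarith), ← Real.rpow_mul hx0.le]
      have h2a : (0 : ℝ) ≤ 2 ^ a' := Real.rpow_nonneg (by norm_num) _
      have hxa : 0 ≤ x ^ ((1 - b) * a') := Real.rpow_nonneg hx0.le _
      calc (n : ℝ) ^ a' * (4 * j) ≤ (2 ^ a' * x ^ ((1 - b) * a')) * (4 * (2 * x ^ ε)) := by gcongr
        _ = (8 * 2 ^ a') * (x ^ ((1 - b) * a') * x ^ ε) := by ring
        _ ≤ x ^ (a - ε - (1 - b) * a') * (x ^ ((1 - b) * a') * x ^ ε) :=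
            mul_le_mul_of_nonneg_right k6 (by positivity)
        _ = x ^ a := by
            rw [← Real.rpow_add hx0, ← Real.rpow_add hx0]
            congr 1
            ring
    have d2 : F n (x ^ a / (4 * j)) ≤ Real.exp (-((n : ℝ) ^ e)) := (hanti n d1).trans hN1
    have d3 : x ^ ((1 - b) * e) ≤ (n : ℝ) ^ e := by
      rw [Real.rpow_mul hx0.le]
      exact Real.rpow_le_rpow (by linarith) hn1 he.le
    have hC2 : 0 < 2 * C1 ^ 2 := by positivity
    have d4 : x ^ e' + Real.log (2 * C1 ^ 2) + 2 * b * Real.log x ≤ (n : ℝ) ^ e := by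
      refine le_trans ?_ (k8.trans d3)
      have f3 : 1 ≤ x ^ e' := Real.one_le_rpow hxe he'0.le
      have hC11 : 1 ≤ C1 ^ 2 := one_le_pow₀ hC10
      have f4 : 0 ≤ Real.log (2 * C1 ^ 2) := Real.log_nonneg (by linarith)
      have f5 := le_mul_of_one_le_right f4 f3
      have f7 := mul_le_mul_of_nonneg_left k9 (show 0 ≤ 2 * b by linarith)
      have f6 : (1 + Real.log (2 * C1 ^ 2) + 2 * b) * x ^ e' =
        x ^ e' + Real.log (2 * C1 ^ 2) * x ^ e' + 2 * b * x ^ e' := by ring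
      linarith
    have d5 : x ^ (2 * b) = Real.exp (2 * b * Real.log x) := by
      rw [Real.rpow_def_of_pos hx0]
      congr 1
      ring
    calc (2 * (ρ : ℝ) + 1) ^ 2 * F n (x ^ a / (4 * j))
        ≤ (2 * (ρ : ℝ) + 1) ^ 2 * Real.exp (-((n : ℝ) ^ e)) := mul_le_mul_of_nonneg_left d2 (by positivity)
      _ ≤ (C1 ^ 2 * x ^ (2 * b)) * Real.exp (-((n : ℝ) ^ e)) :=
          mul_le_mul_of_nonneg_right hρsq (Real.exp_pos _).le
      _ ≤ (C1 ^ 2 * x ^ (2 * b)) * Real.exp (-(x ^ e' + Real.log (2 * C1 ^ 2) + 2 * b * Real.log x)) := by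
          refine mul_le_mul_of_nonneg_left (Real.exp_le_exp.2 (by linarith)) (by positivity)
      _ = Real.exp (-(x ^ e')) / 2 := by
          rw [neg_add, neg_add, Real.exp_add, Real.exp_add, Real.exp_neg (Real.log (2 * C1 ^ 2)),
            Real.exp_log hC2, Real.exp_neg (2 * b * Real.log x), ← d5]
          have : 0 < x ^ (2 * b) := Real.rpow_pos_of_pos hx0 _
          field_simp
  linarith

theorem t_ITG : S_ITG := by
  intro F h0 hanti B M hB hM hzero hrec κ κ' q hκ' hκ hκ1 hq hdec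
  have hκ0 : 0 < κ := hκ'.trans hκ
  -- the choice of `b`
  obtain ⟨b, hb0, hb1, hbκ, hbq⟩ : ∃ b : ℝ, 0 < b ∧ b < 1 ∧ κ' < (1 - b) * κ ∧ 2 * b < (1 - b) * q := by
    refine ⟨min ((κ - κ') / (2 * κ)) (min (q / (2 * (2 + q))) (1 / 2)), ?_, ?_, ?_, ?_⟩
    · have : 0 < κ - κ' := by linarith
      refine lt_min (by positivity) (lt_min (by positivity) (by norm_num))
    · refine lt_of_le_of_lt ((min_le_right _ _).trans (min_le_right _ _)) (by norm_num)
    · have h1 := min_le_left ((κ - κ') / (2 * κ)) (min (q / (2 * (2 + q))) (1 / 2))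
      set b := min ((κ - κ') / (2 * κ)) (min (q / (2 * (2 + q))) (1 / 2))
      have h2 : b * κ ≤ (κ - κ') / 2 := by
        calc b * κ ≤ (κ - κ') / (2 * κ) * κ := mul_le_mul_of_nonneg_right h1 hκ0.le
          _ = (κ - κ') / 2 := by field_simp
      nlinarith
    · have h1 : min ((κ - κ') / (2 * κ)) (min (q / (2 * (2 + q))) (1 / 2)) ≤ q / (2 * (2 + q)) :=
        (min_le_right _ _).trans (min_le_left _ _)
      set b := min ((κ - κ') / (2 * κ)) (min (q / (2 * (2 + q))) (1 / 2))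
      have h2 : b * (2 + q) ≤ q / 2 := by
        calc b * (2 + q) ≤ q / (2 * (2 + q)) * (2 + q) := mul_le_mul_of_nonneg_right h1 (by positivity)
          _ = q / 2 := by field_simp
      nlinarith
  have hκ'1 : κ' < 1 := hκ.trans hκ1
  have hind : ∀ k : ℕ, PP F (max (1 - κ') ((1 - b / 2) ^ k * 2)) := by
    intro k
    induction k with
    | zero =>
      rw [pow_zero, one_mul, max_eq_right (by linarith)]
      refine ⟨1, one_pos, ?_⟩
      filter_upwards [tendsto_natCast_atTop_atTop (R := ℝ) |>.eventually (eventually_ge_atTop B),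
        eventually_ge_atTop 1] with n hn hn1
      have h1 : F n ((n : ℝ) ^ (2 : ℝ)) = 0 := by
        refine hzero n _ hn1 ?_
        rw [show (2 : ℝ) = ((2 : ℕ) : ℝ) by norm_num, Real.rpow_natCast, sq]
        exact mul_le_mul_of_nonneg_right hn (Nat.cast_nonneg _)
      rw [h1]
      exact (Real.exp_pos _).le
    | succ k ih =>
      refine itg_step hanti hB hM hrec hκ'1 hκ0 hq hb0 hb1 hbκ hbq (le_max_left _ _) ?_ ?_ hκ' hdec ih
      · exact lt_max_of_lt_left (by linarith)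
      · have h1 : 0 < 1 - b / 2 := by linarith
        rw [mul_max_of_nonneg _ _ h1.le]
        refine max_le_max ?_ (le_of_eq ?_)
        · have : 0 < 1 - κ' := by linarith
          nlinarith
        · rw [pow_succ]
          ring
  obtain ⟨k, hk⟩ : ∃ k : ℕ, (1 - b / 2) ^ k < (1 - κ') / 2 :=
    exists_pow_lt_of_lt_one (by linarith) (by linarith)
  have h := hind k
  rw [max_eq_left (by linarith)] at h
  exact h

end Pool.Agent.Run7.h824.OH
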