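import Pool.Agent.Run7.h824.OH.ITG

/-!
# Planar first-passage percolation, lower tail: piece ITT (helper824)

From stretched exponential moderate deviations to large deviations.
-/

set_option autoImplicit false

open Filter Set Topology

namespace Pool.Agent.Run7.h824.OH

open Pool.Agent.Run7.h472.OH

/-- the condition with the exponent `θ` -/
def Cond (F : ℕ → ℝ → ℝ) (B θ : ℝ) : Prop :=
  ∃ A : ℝ, 1 ≤ A ∧ ∀ δ : ℝ, 0 < δ → δ ≤ 1 → ∃ n : ℕ, 1 ≤ n ∧ (n : ℝ) ≤ A * δ ^ (-θ) ∧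
    ∃ (y : ℝ) (I : ℕ), 0 < y ∧ δ * n / B ≤ y ∧ B * n ≤ 2 ^ I * y ∧
      Sm F n (δ * n / B) (B / (δ * n)) y I ≤ 1 / B

/-- the large deviation bound with the exponent `θ` -/
def Claim (F : ℕ → ℝ → ℝ) (θ : ℝ) : Prop :=
  ∃ A : ℝ, 1 ≤ A ∧ ∀ (m : ℕ) (δ : ℝ), 1 ≤ m → 0 < δ → δ ≤ 1 →
    F m (δ * m) ≤ A * m ^ 2 * Real.exp (-(m * δ ^ θ / A))

theorem claim_of_cond {F : ℕ → ℝ → ℝ} (h1 : ∀ n u, F n u ≤ 1) {B θ : ℝ} (hB : 1 ≤ B)
    (hst : ∀ δ : ℝ, 0 < δ → δ ≤ 1 → ∀ n : ℕ, 1 ≤ n → ∀ (y : ℝ) (I : ℕ), 0 < y → δ * n / B ≤ y →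
      B * n ≤ 2 ^ I * y → Sm F n (δ * n / B) (B / (δ * n)) y I ≤ 1 / B →
      ∀ m : ℕ, n ≤ m → F m (δ * m) ≤ B * m ^ 2 * Real.exp (-((m : ℝ) / n)))
    (hC : Cond F B θ) : Claim F θ := by
  obtain ⟨A, hA, hC⟩ := hC
  have hA0 : 0 < A := by linarith
  refine ⟨A + B + 3, by linarith, fun m δ hm hδ hδ1 => ?_⟩
  obtain ⟨n, hn, hnA, y, I, hy, hy1, hy2, hSm⟩ := hC δ hδ hδ1
  have hmr : (1 : ℝ) ≤ m := by exact_mod_cast hm
  have hnr : (1 : ℝ) ≤ n := by exact_mod_cast hn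
  have hn0 : (0 : ℝ) < n := by linarith
  have hδθ : 0 < δ ^ θ := Real.rpow_pos_of_pos hδ _
  have hnδ : (n : ℝ) * δ ^ θ ≤ A := by
    calc (n : ℝ) * δ ^ θ ≤ A * δ ^ (-θ) * δ ^ θ := mul_le_mul_of_nonneg_right hnA hδθ.le
      _ = A := by
          rw [mul_assoc, ← Real.rpow_add hδ]
          simp
  have hA' : 0 < A + B + 3 := by linarith
  rcases le_or_gt n m with h | h
  · refine (hst δ hδ hδ1 n hn y I hy hy1 hy2 hSm m h).trans ?_
    have e1 : (m : ℝ) * δ ^ θ / (A + B + 3) ≤ m / n := by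
      rw [div_le_div_iff₀ hA' hn0]
      calc (m : ℝ) * δ ^ θ * n = m * (n * δ ^ θ) := by ring
        _ ≤ m * A := mul_le_mul_of_nonneg_left hnδ (by linarith)
        _ ≤ m * (A + B + 3) := mul_le_mul_of_nonneg_left (by linarith) (by linarith)
    refine mul_le_mul ?_ (Real.exp_le_exp.2 (neg_le_neg e1)) (Real.exp_pos _).le (by positivity)
    exact mul_le_mul_of_nonneg_right (by linarith) (by positivity)
  · refine (h1 _ _).trans ?_
    have hmn : (m : ℝ) ≤ n := by exact_mod_cast h.le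
    have e1 : (m : ℝ) * δ ^ θ / (A + B + 3) ≤ 1 := by
      rw [div_le_one hA']
      calc (m : ℝ) * δ ^ θ ≤ n * δ ^ θ := mul_le_mul_of_nonneg_right hmn hδθ.le
        _ ≤ A := hnδ
        _ ≤ A + B + 3 := by linarith
    have e2 : (1 : ℝ) / 3 ≤ Real.exp (-1) := by
      rw [Real.exp_neg, one_div]
      refine inv_anti₀ (Real.exp_pos _) ?_
      have := Real.exp_one_lt_d9
      linarith
    have e3 : Real.exp (-1) ≤ Real.exp (-((m : ℝ) * δ ^ θ / (A + B + 3))) :=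
      Real.exp_le_exp.2 (neg_le_neg e1)
    have e4 : (1 : ℝ) ≤ (m : ℝ) ^ 2 := one_le_pow₀ hmr
    have e5 : (3 : ℝ) ≤ (A + B + 3) * (m : ℝ) ^ 2 := by
      calc (3 : ℝ) ≤ (A + B + 3) * 1 := by linarith
        _ ≤ (A + B + 3) * (m : ℝ) ^ 2 := mul_le_mul_of_nonneg_left e4 hA'.le
    calc (1 : ℝ) = 3 * (1 / 3) := by norm_num
      _ ≤ (A + B + 3) * (m : ℝ) ^ 2 * Real.exp (-((m : ℝ) * δ ^ θ / (A + B + 3))) :=
        mul_le_mul e5 (e2.trans e3) (by norm_num) (by positivity)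

/-- the choice of the scale -/
theorem scale {A0 δ θ : ℝ} (hA0 : 1 ≤ A0) (hδ : 0 < δ) (hδ1 : δ ≤ 1) (hθ : 1 ≤ θ) :
    ∃ n : ℕ, 1 ≤ n ∧ (n : ℝ) ≤ 2 * A0 ^ θ * δ ^ (-θ) ∧ (A0 / δ) ^ θ ≤ n ∧ A0 ≤ n := by
  have hX1 : 1 ≤ A0 / δ := by
    rw [le_div_iff₀ hδ]
    linarith
  have hXA : A0 ≤ A0 / δ := by
    rw [le_div_iff₀ hδ]
    nlinarith
  have hXθ : A0 / δ ≤ (A0 / δ) ^ θ := by
    calc A0 / δ = (A0 / δ) ^ (1 : ℝ) := (Real.rpow_one _).symm
      _ ≤ (A0 / δ) ^ θ := Real.rpow_le_rpow_of_exponent_le hX1 hθ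
  have h1 := Nat.le_ceil ((A0 / δ) ^ θ)
  have h2 := Nat.ceil_lt_add_one (show 0 ≤ (A0 / δ) ^ θ by linarith)
  refine ⟨⌈(A0 / δ) ^ θ⌉₊, ?_, ?_, h1, by linarith⟩
  · have : (1 : ℝ) ≤ (⌈(A0 / δ) ^ θ⌉₊ : ℝ) := by linarith
    exact_mod_cast this
  · have e : (A0 / δ) ^ θ = A0 ^ θ * δ ^ (-θ) := by
      rw [Real.div_rpow (by linarith) hδ.le, Real.rpow_neg hδ.le, div_eq_mul_inv]
    have h3 : 2 * A0 ^ θ * δ ^ (-θ) = 2 * (A0 / δ) ^ θ := by rw [e]; ring
    rw [h3]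
    linarith

theorem level {B δ κ : ℝ} {n : ℕ} (hB : 0 < B) (hn : 1 ≤ n) (h : B / δ ≤ (n : ℝ) ^ κ)
    (hδ : 0 < δ) : (n : ℝ) ^ (1 - κ) ≤ δ * n / B := by
  have hn0 : (0 : ℝ) < n := by
    have : 0 < n := hn
    exact_mod_cast this
  rw [div_le_iff₀ hδ] at h
  rw [le_div_iff₀ hB]
  have e1 : (n : ℝ) = (n : ℝ) ^ (1 - κ) * (n : ℝ) ^ κ := by
    rw [← Real.rpow_add hn0]
    simp
  have e2 : 0 ≤ (n : ℝ) ^ (1 - κ) := Real.rpow_nonneg hn0.le _
  calc (n : ℝ) ^ (1 - κ) * B ≤ (n : ℝ) ^ (1 - κ) * ((n : ℝ) ^ κ * δ) :=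
        mul_le_mul_of_nonneg_left h e2
    _ = δ * ((n : ℝ) ^ (1 - κ) * (n : ℝ) ^ κ) := by ring
    _ = δ * n := by rw [← e1]

theorem pow_ge {X θ t : ℝ} {n : ℕ} (hX : 1 ≤ X) (hn : X ^ θ ≤ n) (ht : 0 < t) {r : ℝ} (h : r ≤ θ * t) :
    X ^ r ≤ (n : ℝ) ^ t := by
  calc X ^ r ≤ X ^ (θ * t) := Real.rpow_le_rpow_of_exponent_le hX h
    _ = (X ^ θ) ^ t := by rw [Real.rpow_mul (by linarith)]
    _ ≤ (n : ℝ) ^ t := Real.rpow_le_rpow (Real.rpow_nonneg (by linarith) _) hn ht.le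

theorem cond_zero {F : ℕ → ℝ → ℝ} (hanti : ∀ n, Antitone (F n)) {B κ κ' e : ℝ} (hB : 1 ≤ B)
    (hκ' : 0 < κ') (hκ : κ' < κ) (hκ1 : κ < 1) (he : 0 < e)
    (hdec : ∀ᶠ n : ℕ in atTop, F n ((n : ℝ) ^ (1 - κ)) ≤ Real.exp (-((n : ℝ) ^ e))) :
    Cond F B (1 / e + 1 / κ') := by
  obtain ⟨N1, hN1⟩ := eventually_atTop.1 hdec
  obtain ⟨A0, hA0⟩ : ∃ A0 : ℝ, A0 = B ^ 2 + B + N1 + 1 := ⟨_, rfl⟩
  have hNr : (0 : ℝ) ≤ N1 := Nat.cast_nonneg _
  have hA01 : 1 ≤ A0 := by rw [hA0]; nlinarith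
  have hκ'1 : κ' < 1 := hκ.trans hκ1
  have hκ0 : 0 < κ := hκ'.trans hκ
  have h1e : 0 < 1 / e := by positivity
  have h1κ : 1 < 1 / κ' := by rw [lt_div_iff₀ hκ']; linarith
  obtain ⟨θ, hθ⟩ : ∃ θ : ℝ, θ = 1 / e + 1 / κ' := ⟨_, rfl⟩
  rw [← hθ]
  have hθ1 : 1 ≤ θ := by rw [hθ]; linarith
  have hθe : 1 ≤ θ * e := by
    have : θ * e = 1 + 1 / κ' * e := by rw [hθ]; field_simp
    rw [this]
    have : 0 < 1 / κ' * e := by positivity
    linarith
  have hθκ : 1 ≤ θ * κ := by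
    have h2 : 1 / κ' * κ' = 1 := by field_simp
    have h3 : 1 / κ' * κ' ≤ 1 / κ' * κ := mul_le_mul_of_nonneg_left hκ.le (by positivity)
    have h4 : 1 / κ' * κ ≤ θ * κ := mul_le_mul_of_nonneg_right (by rw [hθ]; linarith) hκ0.le
    linarith
  refine ⟨2 * A0 ^ θ, ?_, fun δ hδ hδ1 => ?_⟩
  · have : 1 ≤ A0 ^ θ := Real.one_le_rpow hA01 (by linarith)
    linarith
  obtain ⟨n, hn, hnA, hnX, hnA0⟩ := scale hA01 hδ hδ1 hθ1
  have hX1 : 1 ≤ A0 / δ := by
    rw [le_div_iff₀ hδ]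
    linarith
  have hnN1 : N1 ≤ n := by
    have : (N1 : ℝ) ≤ n := by
      refine le_trans ?_ hnA0
      rw [hA0]
      nlinarith
    exact_mod_cast this
  have hnr : (1 : ℝ) ≤ n := by exact_mod_cast hn
  have hn0 : (0 : ℝ) < n := by linarith
  have hne : A0 / δ ≤ (n : ℝ) ^ e := by
    have := pow_ge hX1 hnX he hθe
    rwa [Real.rpow_one] at this
  have hnκ : A0 / δ ≤ (n : ℝ) ^ κ := by
    have := pow_ge hX1 hnX hκ0 hθκ
    rwa [Real.rpow_one] at this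
  have hB0 : 0 < B := by linarith
  have hBδ : B / δ ≤ (n : ℝ) ^ κ := by
    refine le_trans ?_ hnκ
    refine div_le_div_of_nonneg_right ?_ hδ.le
    rw [hA0]
    nlinarith
  refine ⟨n, hn, hnA, B * n, 0, by positivity, ?_, by rw [pow_zero, one_mul], ?_⟩
  · rw [div_le_iff₀ hB0]
    have : δ * n ≤ 1 * n := mul_le_mul_of_nonneg_right hδ1 hn0.le
    nlinarith [mul_pos hB0 hn0]
  · unfold Sm
    rw [Finset.sum_range_zero, add_zero]
    have e1 : B / (δ * n) * (B * n) = B ^ 2 / δ := by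
      field_simp
    rw [e1]
    have e2 : F n (δ * n / B) ≤ Real.exp (-((n : ℝ) ^ e)) :=
      (hanti n (level hB0 hn hBδ hδ)).trans (hN1 n hnN1)
    have e3 : B ^ 2 / δ - (n : ℝ) ^ e ≤ -B := by
      have f1 : B ^ 2 / δ + B / δ ≤ A0 / δ := by
        rw [← add_div]
        refine div_le_div_of_nonneg_right ?_ hδ.le
        rw [hA0]
        linarith
      have f2 : B ≤ B / δ := by
        rw [le_div_iff₀ hδ]
        nlinarith
      linarith
    calc Real.exp (B ^ 2 / δ) * F n (δ * n / B)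
        ≤ Real.exp (B ^ 2 / δ) * Real.exp (-((n : ℝ) ^ e)) :=
          mul_le_mul_of_nonneg_left e2 (Real.exp_pos _).le
      _ = Real.exp (B ^ 2 / δ - (n : ℝ) ^ e) := by
          rw [← Real.exp_add, ← sub_eq_add_neg]
      _ ≤ Real.exp (-B) := Real.exp_le_exp.2 e3
      _ ≤ 1 / B := by
          rw [Real.exp_neg, one_div]
          refine inv_anti₀ hB0 ?_
          have := Real.add_one_le_exp B
          linarith

theorem geo {r : ℝ} (h0 : 0 ≤ r) (h : r ≤ 1 / 2) (I : ℕ) : ∑ i ∈ Finset.range I, r ^ i ≤ 2 := by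
  have key : ∑ i ∈ Finset.range I, r ^ i ≤ 2 - 2 * r ^ I := by
    induction I with
    | zero => simp
    | succ I ih =>
      rw [Finset.sum_range_succ, pow_succ]
      have h1 : 0 ≤ r ^ I := pow_nonneg h0 I
      have h2 : r ^ I * r ≤ r ^ I * (1 / 2) := mul_le_mul_of_nonneg_left h h1
      linarith
  have h1 : 0 ≤ r ^ I := pow_nonneg h0 I
  linarith

theorem cond_step {F : ℕ → ℝ → ℝ} (hanti : ∀ n, Antitone (F n)) {B κ κ' e θ θ1 : ℝ} (hB : 1 ≤ B)
    (hzero : ∀ (n : ℕ) (u : ℝ), 1 ≤ n → B * n ≤ u → F n u = 0)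
    (hκ' : 0 < κ') (hκ : κ' < κ) (hκ1 : κ < 1) (he : 0 < e)
    (hdec : ∀ᶠ n : ℕ in atTop, F n ((n : ℝ) ^ (1 - κ)) ≤ Real.exp (-((n : ℝ) ^ e)))
    (hθ : 1 / κ' ≤ θ) (hθ1 : 1 / κ' ≤ θ1) (hθθ : θ ≤ θ1 * (1 + (1 / κ' - 1) * (e / 2)))
    (hC : Claim F θ) : Cond F B θ1 := by
  obtain ⟨A', hA', hC⟩ := hC
  have hB0 : 0 < B := by linarith
  have hA'0 : 0 < A' := by linarith
  have hκ'1 : κ' < 1 := hκ.trans hκ1
  have hκ0 : 0 < κ := hκ'.trans hκ
  have h1κ : 1 < 1 / κ' := by rw [lt_div_iff₀ hκ']; linarith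
  have hθ' : 1 ≤ θ := by linarith
  have hθ1' : 1 ≤ θ1 := by linarith
  have hev : ∀ᶠ x : ℝ in atTop, (Real.log (4 * A' * B) + 2) * x ^ (e / 4) ≤ x ^ (e / 2) ∧
      Real.log x ≤ x ^ (e / 4) ∧ (B + Real.log (2 * B)) * x ^ (e / 2) ≤ x ^ e :=
    (ev_le _ (by linarith)).and <| (ev_log (by positivity)).and (ev_le _ (by linarith))
  obtain ⟨N1, hN1⟩ := eventually_atTop.1
    (hdec.and (tendsto_natCast_atTop_atTop (R := ℝ) |>.eventually hev))
  obtain ⟨A0, hA0⟩ : ∃ A0 : ℝ, A0 = A' * B ^ θ * (2 * B + 1) + B + N1 + 1 := ⟨_, rfl⟩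
  have hNr : (0 : ℝ) ≤ N1 := Nat.cast_nonneg _
  have hBθ : 0 < B ^ θ := Real.rpow_pos_of_pos hB0 _
  have hA2 : 0 < A' * B ^ θ * (2 * B + 1) := by positivity
  have hA01 : 1 ≤ A0 := by rw [hA0]; linarith
  refine ⟨2 * A0 ^ θ1, ?_, fun δ hδ hδ1 => ?_⟩
  · have : 1 ≤ A0 ^ θ1 := Real.one_le_rpow hA01 (by linarith)
    linarith
  obtain ⟨n, hn, hnA, hnX, hnA0⟩ := scale hA01 hδ hδ1 hθ1'
  have hX1 : 1 ≤ A0 / δ := by
    rw [le_div_iff₀ hδ]
    linarith
  have hnN1 : N1 ≤ n := by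
    have : (N1 : ℝ) ≤ n := by
      refine le_trans ?_ hnA0
      rw [hA0]
      linarith
    exact_mod_cast this
  obtain ⟨hFn, k1, k2, k3⟩ := hN1 n hnN1
  have hnr : (1 : ℝ) ≤ n := by exact_mod_cast hn
  have hn0 : (0 : ℝ) < n := by linarith
  have hnκ : A0 / δ ≤ (n : ℝ) ^ κ := by
    have h2 : 1 ≤ θ1 * κ := by
      have h2 : 1 / κ' * κ' = 1 := by field_simp
      have h3 : 1 / κ' * κ' ≤ 1 / κ' * κ := mul_le_mul_of_nonneg_left hκ.le (by positivity)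
      have h4 : 1 / κ' * κ ≤ θ1 * κ := mul_le_mul_of_nonneg_right hθ1 hκ0.le
      linarith
    have := pow_ge hX1 hnX hκ0 h2
    rwa [Real.rpow_one] at this
  have hBδ : B / δ ≤ (n : ℝ) ^ κ := by
    refine le_trans ?_ hnκ
    refine div_le_div_of_nonneg_right ?_ hδ.le
    rw [hA0]
    linarith
  -- the main quantity
  obtain ⟨Z, hZ⟩ : ∃ Z : ℝ, Z = (n : ℝ) ^ (e / 2) := ⟨_, rfl⟩
  have hZ1 : 1 ≤ Z := by rw [hZ]; exact Real.one_le_rpow hnr (by positivity)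
  have hZ0 : 0 < Z := by linarith
  obtain ⟨s, hs⟩ : ∃ s : ℝ, s = Z * δ := ⟨_, rfl⟩
  have hs0 : 0 < s := by rw [hs]; positivity
  have hmain : (2 * B + 1) * Z ≤ n * (s / B) ^ θ / A' := by
    have e1 : (s / B) ^ θ = Z ^ θ * δ ^ θ / B ^ θ := by
      rw [Real.div_rpow hs0.le hB0.le, hs, Real.mul_rpow hZ0.le hδ.le]
    have e2 : Z ^ θ = (n : ℝ) ^ ((θ - 1) * (e / 2)) * Z := by
      rw [hZ, ← Real.rpow_mul hn0.le, ← Real.rpow_add hn0]
      congr 1
      ring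
    have e3 : (A0 / δ) ^ θ ≤ (n : ℝ) ^ (1 + (θ - 1) * (e / 2)) := by
      have f1 : 0 ≤ (θ - 1) * (e / 2) := mul_nonneg (by linarith) (by linarith)
      refine pow_ge hX1 hnX (by linarith) (hθθ.trans ?_)
      refine mul_le_mul_of_nonneg_left ?_ (by linarith)
      have : (1 / κ' - 1) * (e / 2) ≤ (θ - 1) * (e / 2) :=
        mul_le_mul_of_nonneg_right (by linarith) (by linarith)
      linarith
    have e4 : (A0 / δ) ^ θ * δ ^ θ = A0 ^ θ := by
      rw [← Real.mul_rpow (by positivity) hδ.le]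
      congr 1
      field_simp
    have hδθ : 0 < δ ^ θ := Real.rpow_pos_of_pos hδ _
    have e5 : A0 ≤ (n : ℝ) ^ (1 + (θ - 1) * (e / 2)) * δ ^ θ := by
      calc A0 = A0 ^ (1 : ℝ) := (Real.rpow_one _).symm
        _ ≤ A0 ^ θ := Real.rpow_le_rpow_of_exponent_le hA01 hθ'
        _ = (A0 / δ) ^ θ * δ ^ θ := e4.symm
        _ ≤ (n : ℝ) ^ (1 + (θ - 1) * (e / 2)) * δ ^ θ := mul_le_mul_of_nonneg_right e3 hδθ.le
    have e6 : A' * B ^ θ * (2 * B + 1) ≤ (n : ℝ) ^ (1 + (θ - 1) * (e / 2)) * δ ^ θ := by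
      refine le_trans ?_ e5
      rw [hA0]
      linarith
    rw [le_div_iff₀ hA'0, e1, e2, mul_div_assoc', le_div_iff₀ hBθ]
    rw [Real.rpow_add hn0, Real.rpow_one] at e6
    calc (2 * B + 1) * Z * A' * B ^ θ = (A' * B ^ θ * (2 * B + 1)) * Z := by ring
      _ ≤ ((n : ℝ) * (n : ℝ) ^ ((θ - 1) * (e / 2)) * δ ^ θ) * Z :=
          mul_le_mul_of_nonneg_right e6 hZ0.le
      _ = _ := by ring
  obtain ⟨y, hy⟩ : ∃ y : ℝ, y = s * n := ⟨_, rfl⟩
  have hy0 : 0 < y := by rw [hy]; positivity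
  obtain ⟨I, hI⟩ : ∃ I : ℕ, B * n / y < 2 ^ I := pow_unbounded_of_one_lt _ (by norm_num)
  refine ⟨n, hn, hnA, y, I, hy0, ?_, ?_, ?_⟩
  · rw [div_le_iff₀ hB0, hy, hs]
    have f1 : 1 ≤ Z * B := by nlinarith
    have f2 : 0 < δ * n := by positivity
    calc δ * n = δ * n * 1 := (mul_one _).symm
      _ ≤ δ * n * (Z * B) := mul_le_mul_of_nonneg_left f1 f2.le
      _ = Z * δ * n * B := by ring
  · rw [div_lt_iff₀ hy0] at hI
    exact hI.le
  · unfold Sm
    have hlam : ∀ c : ℝ, B / (δ * n) * (c * y) = c * (B * Z) := by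
      intro c
      rw [hy, hs]
      field_simp
    -- the first term
    have t1 : Real.exp (B / (δ * n) * y) * F n (δ * n / B) ≤ 1 / (2 * B) := by
      have e1 : B / (δ * n) * y = B * Z := by
        have := hlam 1
        rwa [one_mul, one_mul] at this
      rw [e1]
      have e2 : F n (δ * n / B) ≤ Real.exp (-((n : ℝ) ^ e)) :=
        (hanti n (level hB0 hn hBδ hδ)).trans hFn
      have e3 : B * Z - (n : ℝ) ^ e ≤ -Real.log (2 * B) := by
        rw [← hZ] at k3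
        have f4 : 0 ≤ Real.log (2 * B) := Real.log_nonneg (by linarith)
        have f5 := le_mul_of_one_le_right f4 hZ1
        have f6 : (B + Real.log (2 * B)) * Z = B * Z + Real.log (2 * B) * Z := by ring
        linarith
      calc Real.exp (B * Z) * F n (δ * n / B)
          ≤ Real.exp (B * Z) * Real.exp (-((n : ℝ) ^ e)) :=
            mul_le_mul_of_nonneg_left e2 (Real.exp_pos _).le
        _ = Real.exp (B * Z - (n : ℝ) ^ e) := by
            rw [← Real.exp_add, ← sub_eq_add_neg]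
        _ ≤ Real.exp (-Real.log (2 * B)) := Real.exp_le_exp.2 e3
        _ = 1 / (2 * B) := by
            rw [Real.exp_neg, Real.exp_log (by linarith), one_div]
    -- the sum
    have t2 : ∀ i ∈ Finset.range I, Real.exp (B / (δ * n) * (2 ^ (i + 1) * y)) * F n (2 ^ i * y) ≤
        A' * n ^ 2 * Real.exp (-Z) * Real.exp (-Z) ^ i := by
      intro i _
      have hR0 : 0 ≤ A' * n ^ 2 * Real.exp (-Z) * Real.exp (-Z) ^ i := by positivity
      rcases le_or_gt (B * n) (2 ^ i * y) with h | h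
      · rw [hzero n _ hn h, mul_zero]
        exact hR0
      · rw [hlam]
        have h2i : (0 : ℝ) < 2 ^ i := by positivity
        have hlt : 2 ^ i * s < B := by
          rw [hy] at h
          have : 2 ^ i * s * n < B * n := by linarith
          exact lt_of_mul_lt_mul_right this hn0.le
        obtain ⟨d, hd⟩ : ∃ d : ℝ, d = min 1 (2 ^ i * s) := ⟨_, rfl⟩
        have hd0 : 0 < d := by rw [hd]; exact lt_min one_pos (by positivity)
        have hd1 : d ≤ 1 := by rw [hd]; exact min_le_left _ _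
        have hd2 : d ≤ 2 ^ i * s := by rw [hd]; exact min_le_right _ _
        have hd3 : 2 ^ i * (s / B) ≤ d := by
          rw [hd]
          refine le_min ?_ ?_
          · rw [mul_div_assoc', div_le_one hB0]
            exact hlt.le
          · refine mul_le_mul_of_nonneg_left ?_ h2i.le
            exact div_le_self hs0.le hB
        have f1 : F n (2 ^ i * y) ≤ A' * n ^ 2 * Real.exp (-(n * d ^ θ / A')) := by
          refine le_trans (hanti n ?_) (hC n d hn hd0 hd1)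
          calc d * n ≤ 2 ^ i * s * n := mul_le_mul_of_nonneg_right hd2 hn0.le
            _ = 2 ^ i * y := by rw [hy]; ring
        have f2 : 2 ^ i * (s / B) ^ θ ≤ d ^ θ := by
          have g1 : (2 ^ i * (s / B)) ^ θ ≤ d ^ θ :=
            Real.rpow_le_rpow (by positivity) hd3 (by linarith)
          have g2 : ((2 : ℝ) ^ i) ≤ ((2 : ℝ) ^ i) ^ θ := by
            calc ((2 : ℝ) ^ i) = ((2 : ℝ) ^ i) ^ (1 : ℝ) := (Real.rpow_one _).symm
              _ ≤ ((2 : ℝ) ^ i) ^ θ :=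
                Real.rpow_le_rpow_of_exponent_le (one_le_pow₀ (by norm_num)) hθ'
          rw [Real.mul_rpow h2i.le (by positivity)] at g1
          refine le_trans ?_ g1
          exact mul_le_mul_of_nonneg_right g2 (Real.rpow_nonneg (by positivity) _)
        have f3 : 2 ^ i * ((2 * B + 1) * Z) ≤ n * d ^ θ / A' := by
          calc 2 ^ i * ((2 * B + 1) * Z) ≤ 2 ^ i * (n * (s / B) ^ θ / A') :=
                mul_le_mul_of_nonneg_left hmain h2i.le
            _ = n * (2 ^ i * (s / B) ^ θ) / A' := by ring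
            _ ≤ n * d ^ θ / A' := by gcongr
        have f4 : ((i : ℝ) + 1) * Z ≤ 2 ^ i * Z := by
          refine mul_le_mul_of_nonneg_right ?_ hZ0.le
          have : i + 1 ≤ 2 ^ i := Nat.lt_two_pow_self
          exact_mod_cast this
        have f5 : 2 ^ (i + 1) * (B * Z) - n * d ^ θ / A' ≤ -Z + i * (-Z) := by
          have g1 : (2 : ℝ) ^ (i + 1) * (B * Z) = 2 ^ i * (2 * B * Z) := by rw [pow_succ]; ring
          have g2 : (2 : ℝ) ^ i * ((2 * B + 1) * Z) = 2 ^ i * (2 * B * Z) + 2 ^ i * Z := by ring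
          rw [g1]
          linarith
        calc Real.exp (2 ^ (i + 1) * (B * Z)) * F n (2 ^ i * y)
            ≤ Real.exp (2 ^ (i + 1) * (B * Z)) * (A' * n ^ 2 * Real.exp (-(n * d ^ θ / A'))) :=
              mul_le_mul_of_nonneg_left f1 (Real.exp_pos _).le
          _ = A' * n ^ 2 * Real.exp (2 ^ (i + 1) * (B * Z) - n * d ^ θ / A') := by
              rw [sub_eq_add_neg, Real.exp_add]
              ring
          _ ≤ A' * n ^ 2 * Real.exp (-Z + i * (-Z)) :=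
              mul_le_mul_of_nonneg_left (Real.exp_le_exp.2 f5) (by positivity)
          _ = A' * n ^ 2 * Real.exp (-Z) * Real.exp (-Z) ^ i := by
              rw [Real.exp_add, Real.exp_nat_mul]
              ring
    have t3 : ∑ i ∈ Finset.range I, Real.exp (B / (δ * n) * (2 ^ (i + 1) * y)) * F n (2 ^ i * y) ≤
        1 / (2 * B) := by
      refine (Finset.sum_le_sum t2).trans ?_
      rw [← Finset.mul_sum]
      have hr : Real.exp (-Z) ≤ 1 / 2 := by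
        have g1 : Real.exp (-Z) ≤ Real.exp (-1) := Real.exp_le_exp.2 (by linarith)
        have g2 : Real.exp (-1) ≤ 1 / 2 := by
          rw [Real.exp_neg, one_div]
          refine inv_anti₀ (by norm_num) ?_
          have := Real.add_one_le_exp (1 : ℝ)
          linarith
        exact g1.trans g2
      have hg := geo (Real.exp_pos (-Z)).le hr I
      have hpos : 0 ≤ A' * n ^ 2 * Real.exp (-Z) := by positivity
      refine (mul_le_mul_of_nonneg_left hg hpos).trans ?_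
      -- `4 A' B n² ≤ exp Z`
      have g3 : Real.log (4 * A' * B * n ^ 2) ≤ Z := by
        rw [Real.log_mul (by positivity) (by positivity), Real.log_pow]
        rw [← hZ] at k1
        have q1 : 1 ≤ (n : ℝ) ^ (e / 4) := Real.one_le_rpow hnr (by positivity)
        have hAB : 1 ≤ 4 * A' * B := by nlinarith
        have q2 : 0 ≤ Real.log (4 * A' * B) := Real.log_nonneg hAB
        have q3 := le_mul_of_one_le_right q2 q1
        have q4 : (Real.log (4 * A' * B) + 2) * (n : ℝ) ^ (e / 4) =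
          Real.log (4 * A' * B) * (n : ℝ) ^ (e / 4) + 2 * (n : ℝ) ^ (e / 4) := by ring
        push_cast
        linarith
      have g4 : 4 * A' * B * n ^ 2 ≤ Real.exp Z := by
        rw [← Real.log_le_iff_le_exp (by positivity)]
        exact g3
      rw [Real.exp_neg, le_div_iff₀ (by positivity)]
      have hE : 0 < Real.exp Z := Real.exp_pos Z
      have g5 : A' * n ^ 2 * (Real.exp Z)⁻¹ * 2 * (2 * B) = (4 * A' * B * n ^ 2) / Real.exp Z := by
        rw [div_eq_mul_inv]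
        ring
      rw [g5, div_le_one hE]
      exact g4
    have t4 : 1 / (2 * B) + 1 / (2 * B) = 1 / B := by
      field_simp
      norm_num
    linarith

theorem t_ITT : S_ITT := by
  intro F h0 h1 hanti B hB hzero hst κ κ' e hκ' hκ hκ1 he hdec
  have hκ'1 : κ' < 1 := hκ.trans hκ1
  have h1κ : 1 < 1 / κ' := by rw [lt_div_iff₀ hκ']; linarith
  obtain ⟨η, hη⟩ : ∃ η : ℝ, η = (1 / κ' - 1) * (e / 2) := ⟨_, rfl⟩
  have hη0 : 0 < η := by
    rw [hη]
    have : 0 < 1 / κ' - 1 := by linarith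
    positivity
  obtain ⟨θ0, hθ0⟩ : ∃ θ0 : ℝ, θ0 = 1 / e + 1 / κ' := ⟨_, rfl⟩
  have h1e : 0 < 1 / e := by positivity
  have hθ00 : 0 < θ0 := by rw [hθ0]; linarith
  have hind : ∀ k : ℕ, Cond F B (max (1 / κ') (θ0 * (1 / (1 + η)) ^ k)) := by
    intro k
    induction k with
    | zero =>
      rw [pow_zero, mul_one, max_eq_right (by rw [hθ0]; linarith), hθ0]
      exact cond_zero hanti hB hκ' hκ hκ1 he hdec
    | succ k ih =>
      refine cond_step hanti hB hzero hκ' hκ hκ1 he hdec (le_max_left _ _) (le_max_left _ _) ?_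
        (claim_of_cond h1 hB hst ih)
      rw [← hη]
      refine max_le ?_ ?_
      · have e1 : 1 / κ' ≤ max (1 / κ') (θ0 * (1 / (1 + η)) ^ (k + 1)) := le_max_left _ _
        have e2 : 0 < max (1 / κ') (θ0 * (1 / (1 + η)) ^ (k + 1)) := by linarith
        nlinarith
      · have e1 : θ0 * (1 / (1 + η)) ^ (k + 1) ≤ max (1 / κ') (θ0 * (1 / (1 + η)) ^ (k + 1)) :=
          le_max_right _ _
        have e2 : θ0 * (1 / (1 + η)) ^ k = θ0 * (1 / (1 + η)) ^ (k + 1) * (1 + η) := by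
          rw [pow_succ]
          field_simp
        rw [e2]
        exact mul_le_mul_of_nonneg_right e1 (by linarith)
  have hr : 1 / (1 + η) < 1 := by
    rw [div_lt_one (by linarith)]
    linarith
  obtain ⟨k, hk⟩ : ∃ k : ℕ, (1 / (1 + η)) ^ k < 1 / κ' / θ0 :=
    exists_pow_lt_of_lt_one (by positivity) hr
  have h := hind k
  rw [lt_div_iff₀ hθ00] at hk
  rw [max_eq_left (by linarith)] at h
  exact h

end Pool.Agent.Run7.h824.OH
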